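import Mathlib
import Pool.Agent.W343.FZH.Spec

set_option autoImplicit false

open Filter Topology

namespace Pool.Agent.W755.FZH

open Pool.Agent.W681.FZ

lemma ineqS (a b : ℂ) (e : ℂ) (he : e = 1 ∨ e = -1) :
    ‖a + e * b‖ ^ 2 ≤ 2 * (‖a‖ ^ 2 + ‖b‖ ^ 2) := by
  have h3 : ‖e * b‖ = ‖b‖ := by
    rcases he with h | h <;> simp [h]
  have h4 : ‖a + e * b‖ ≤ ‖a‖ + ‖b‖ := by
    rw [← h3]; exact norm_add_le _ _
  have h6 := norm_nonneg (a + e * b)
  have h5 : ‖a + e * b‖ ^ 2 ≤ (‖a‖ + ‖b‖) ^ 2 := pow_le_pow_left₀ h6 h4 2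
  nlinarith [sq_nonneg (‖a‖ - ‖b‖)]

lemma shiftSum (x : ℤ → ℂ) (hx : Memℓp x 2) (c : ℤ → ℂ) (hc : ∀ n, c n = 1 ∨ c n = -1) :
    Memℓp (fun n => x (n + 1) + c n * x (n - 1)) 2 := by
  rw [mem2] at hx ⊢
  have h1 : Summable (fun n : ℤ => ‖x (n + 1)‖ ^ 2) :=
    hx.comp_injective (i := fun n : ℤ => n + 1) (fun a b h => by simpa using h)
  have h2 : Summable (fun n : ℤ => ‖x (n - 1)‖ ^ 2) :=
    hx.comp_injective (i := fun n : ℤ => n - 1) (fun a b h => by simpa using h)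
  exact Summable.of_nonneg_of_le (fun n => sq_nonneg _)
    (fun n => ineqS (x (n + 1)) (x (n - 1)) (c n) (hc n)) ((h1.add h2).mul_left 2)

lemma exT (c : ℤ → ℂ) (hc : ∀ n, c n = 1 ∨ c n = -1) :
    ∃ T : lp (fun _ : ℤ => ℂ) 2 →L[ℂ] lp (fun _ : ℤ => ℂ) 2,
      ∀ (x : lp (fun _ : ℤ => ℂ) 2) (n : ℤ), (T x) n = x (n + 1) + c n * x (n - 1) := by
  let S : L2 → L2 := fun g => ⟨fun n => g (n + 1) + c n * g (n - 1), shiftSum g (lp.memℓp g) c hc⟩
  have hS : ∀ (g : L2) (n : ℤ), (S g) n = g (n + 1) + c n * g (n - 1) := fun g n => rfl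
  let L : L2 →ₗ[ℂ] L2 :=
    { toFun := S
      map_add' := by
        intro g g'
        apply lp.ext
        funext n
        simp only [hS, lp.coeFn_add, Pi.add_apply]
        ring
      map_smul' := by
        intro a g
        apply lp.ext
        funext n
        simp only [hS, RingHom.id_apply, lp.coeFn_smul, Pi.smul_apply, smul_eq_mul]
        ring }
  have hcont : Continuous L := by
    apply LinearMap.continuous_of_seq_closed_graph
    intro u x y hx hy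
    have hcoe : Continuous (fun f : L2 => (f : ℤ → ℂ)) :=
      (lp.uniformContinuous_coe (E := fun _ : ℤ => ℂ) (p := 2)).continuous
    have hx' : ∀ n, Tendsto (fun k => (u k : ℤ → ℂ) n) atTop (𝓝 (x n)) := fun n =>
      ((continuous_apply n).comp hcoe).continuousAt.tendsto.comp hx
    have hy' : ∀ n, Tendsto (fun k => (S (u k) : ℤ → ℂ) n) atTop (𝓝 (y n)) := fun n =>
      ((continuous_apply n).comp hcoe).continuousAt.tendsto.comp hy
    apply lp.ext
    funext n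
    have h1 : Tendsto (fun k => (u k : ℤ → ℂ) (n + 1) + c n * (u k : ℤ → ℂ) (n - 1)) atTop
        (𝓝 (x (n + 1) + c n * x (n - 1))) := (hx' (n + 1)).add ((hx' (n - 1)).const_mul _)
    exact tendsto_nhds_unique (hy' n) h1
  exact ⟨⟨L, hcont⟩, fun x n => rfl⟩

lemma key (z : ℂ) (c : ℤ → ℂ) (T : lp (fun _ : ℤ => ℂ) 2 →L[ℂ] lp (fun _ : ℤ => ℂ) 2)
    (hT : ∀ (x : lp (fun _ : ℤ => ℂ) 2) (n : ℤ), (T x) n = x (n + 1) + c n * x (n - 1)) :
    z ∈ spectrum ℂ T ↔ ¬ Bij z (fun n => c (n + 1)) := by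
  rw [spectrum.mem_iff, not_iff_not, ContinuousLinearMap.isUnit_iff_bijective]
  have hA : ∀ (f : L2) (n : ℤ), ((algebraMap ℂ (L2 →L[ℂ] L2) z - T) f) n =
      -(c (n - 1 + 1) * f (n - 1) + f (n + 1) - z * f n) := by
    intro f n
    have h1 : (algebraMap ℂ (L2 →L[ℂ] L2) z - T) f = z • f - T f := by
      simp [Algebra.algebraMap_eq_smul_one]
    rw [h1, lp.coeFn_sub, Pi.sub_apply, lp.coeFn_smul, Pi.smul_apply, smul_eq_mul, hT,
      sub_add_cancel]
    ring
  constructor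
  · rintro ⟨hi, hs⟩ y hy
    obtain ⟨f, hf⟩ := hs (-(⟨y, hy⟩ : L2))
    refine ⟨f, ⟨lp.memℓp f, fun n => ?_⟩, ?_⟩
    · have h1 := hA f n
      rw [hf, lp.coeFn_neg, Pi.neg_apply] at h1
      have h2 := neg_injective h1
      exact h2.symm
    · rintro x ⟨hx, hxe⟩
      have h3 : (⟨x, hx⟩ : L2) = f := by
        apply hi
        rw [hf]
        apply lp.ext
        funext n
        rw [hA, lp.coeFn_neg, Pi.neg_apply]
        exact congrArg Neg.neg (hxe n)
      exact congrArg (fun g : L2 => (g : ℤ → ℂ)) h3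
  · intro h
    constructor
    · intro f f' hff
      obtain ⟨x, _, hu⟩ := h (fun n => c (n - 1 + 1) * f (n - 1) + f (n + 1) - z * f n) (by
        have h1 : (fun n : ℤ => c (n - 1 + 1) * f (n - 1) + f (n + 1) - z * f n) =
            ((-((algebraMap ℂ (L2 →L[ℂ] L2) z - T) f) : L2) : ℤ → ℂ) := by
          funext n
          rw [lp.coeFn_neg, Pi.neg_apply, hA, neg_neg]
        rw [h1]
        exact lp.memℓp _)
      have e1 := hu f ⟨lp.memℓp f, fun n => rfl⟩
      have e2 := hu f' ⟨lp.memℓp f', fun n => by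
        have h2 := hA f n
        rw [hff, hA f' n] at h2
        exact neg_injective h2⟩
      exact lp.ext (e1.trans e2.symm)
    · intro g
      obtain ⟨x, ⟨hx, hxe⟩, _⟩ := h (-(g : ℤ → ℂ)) (by
        rw [← lp.coeFn_neg]; exact lp.memℓp _)
      refine ⟨⟨x, hx⟩, ?_⟩
      apply lp.ext
      funext n
      rw [hA]
      have h3 := hxe n
      rw [Pi.neg_apply] at h3
      exact neg_eq_iff_eq_neg.2 h3

theorem B : Pool.Agent.W343.FZH.PartB := by
  intro z c hc
  constructor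
  · rintro ⟨T, hT, hz⟩
    exact (key z c T hT).1 hz
  · intro h
    obtain ⟨T, hT⟩ := exT c hc
    exact ⟨T, hT, (key z c T hT).2 h⟩

end Pool.Agent.W755.FZH
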